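import Pool.Agent.Helper3.WT.Defs
import Pool.Agent.Helper48.ET.GrowthCardCore
import Pool.Agent.Helper48.ET.Code

/-! Piece WT-A3: the number of code words with prescribed lowest (and top) digit. -/

set_option autoImplicit false

namespace Pool.Agent.Helper74.WT

open Finset
open Pool.Agent.Helper48.ET
open Pool.Agent.Helper3.WT

variable {p : ℕ} [Fact p.Prime]

/-- the number of code words with free digits in `F`, the other digits prescribed -/
theorem free_card {C N : ℕ} (hC : 2 ≤ C) (θ : Par p) (F : Finset ℕ) (hF : ∀ u ∈ F, u < N)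
    (y : ℕ → ZMod p) (hy : ∀ u, N ≤ u → y u = 0) {S : Set ℕ}
    (hS : ∀ x z : ℕ → ZMod p, IsCode C 0 N θ x z → (∀ u, u ∉ F → x u = y u) → enc N x z ∈ S)
    (hfin : S.Finite) : p ^ F.card ≤ S.ncard := by
  classical
  let X : (F → ZMod p) → ℕ → ZMod p := fun ξ u => if h : u ∈ F then ξ ⟨u, h⟩ else y u
  have hXF : ∀ ξ (u : F), X ξ u = ξ u := by
    intro ξ u
    simp only [X, u.2, dif_pos]
  have hX0 : ∀ ξ u, u ∉ F → X ξ u = y u := by
    intro ξ u h1
    simp only [X, h1, dif_neg, not_false_eq_true]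
  have hXN : ∀ ξ u, N ≤ u → X ξ u = 0 := by
    intro ξ u hu
    rw [hX0 ξ u (fun h => by have := hF u h; omega)]
    exact hy u hu
  have hcode : ∀ ξ, ∃ z, IsCode C 0 N θ (X ξ) z := fun ξ =>
    code_exists hC (by simp) θ (X ξ) (hXN ξ)
  choose Z hZ using hcode
  have hinj : Function.Injective (fun ξ => enc N (X ξ) (Z ξ)) := by
    intro ξ ξ' h
    funext u
    have h1 := (enc_inj N h u (hF u u.2)).1
    rwa [hXF, hXF] at h1
  have hcard : (Set.range (fun ξ => enc N (X ξ) (Z ξ))).ncard = p ^ F.card := by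
    rw [← Set.image_univ, Set.ncard_image_of_injective _ hinj, Set.ncard_univ,
      Nat.card_eq_fintype_card, Fintype.card_fun, ZMod.card, Fintype.card_coe]
  rw [← hcard]
  apply Set.ncard_le_ncard _ hfin
  rintro _ ⟨ξ, rfl⟩
  exact hS _ _ (hZ ξ) (hX0 ξ)

/-- WT-A3 (adapt `AN_card_core` of Helper48/ET/GrowthCardCore.lean, use `code_exists`) -/
theorem word_card {C M : ℕ} (hC : 2 ≤ C) (hM : 1 ≤ M) (θ : Par p) (ℓ : ℕ) :
    p ^ (M - 1) ≤ (wordSet C M θ ℓ).ncard := by
  classical
  have h := free_card (p := p) (N := M) hC θ (range M \ {0})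
    (fun u hu => by
      rw [Finset.mem_sdiff, Finset.mem_range] at hu
      exact hu.1)
    (fun u => if u = 0 then (ℓ : ZMod p) else 0)
    (fun u hu => if_neg (by omega)) (S := wordSet C M θ ℓ)
    (fun x z hx hxu => by
      refine ⟨x, z, hx, ?_, rfl⟩
      rw [hxu 0 (by simp), if_pos rfl])
    ((Set.finite_Iio ((2 * p) ^ (2 * M))).subset (by
      rintro n ⟨x, z, -, -, rfl⟩
      exact enc_lt M x z))
  refine le_trans (Nat.pow_le_pow_right (Nat.Prime.pos Fact.out) ?_) h
  have h2 := Finset.le_card_sdiff {0} (range M)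
  rw [Finset.card_singleton, Finset.card_range] at h2
  exact h2

/-- WT-A3 -/
theorem top_card {C N : ℕ} (hC : 2 ≤ C) (hN : 2 ≤ N) (θ : Par p) (ℓ : ℕ) :
    p ^ (N - 2) ≤ (topSet C N θ ℓ).ncard := by
  classical
  have h := free_card (p := p) (N := N) hC θ (range N \ {0, N - 1})
    (fun u hu => by
      rw [Finset.mem_sdiff, Finset.mem_range] at hu
      exact hu.1)
    (fun u => if u = 0 then (ℓ : ZMod p) else if u = N - 1 then 1 else 0)
    (fun u hu => by rw [if_neg (by omega), if_neg (by omega)]) (S := topSet C N θ ℓ)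
    (fun x z hx hxu => by
      refine ⟨x, z, hx, ?_, ?_, rfl⟩
      · rw [hxu 0 (by simp), if_pos rfl]
      · rw [hxu (N - 1) (by simp), if_neg (by omega), if_pos rfl])
    ((Set.finite_Iio ((2 * p) ^ (2 * N))).subset (by
      rintro n ⟨x, z, -, -, -, rfl⟩
      exact enc_lt N x z))
  refine le_trans (Nat.pow_le_pow_right (Nat.Prime.pos Fact.out) ?_) h
  have h2 := Finset.le_card_sdiff {0, N - 1} (range N)
  have h3 : ({0, N - 1} : Finset ℕ).card ≤ 2 := Finset.card_le_two
  rw [Finset.card_range] at h2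
  omega

end Pool.Agent.Helper74.WT
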